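import Pool.Agent.W2helper67.FD.Mult
import Pool.Agent.W2helper67.FD.Ex
import Pool.Agent.R501.LP1

/-!
# The least primes in almost all classes, for all the multiples of all the moduli near all long truncations of almost all real
numbers, with respect to measures with Fourier decay

From Mathlib: `MeasureTheory.charFun μ ξ = ∫ exp (i ξ t) dμ(t)`, the characteristic function; `Measure.conv`, the
convolution; `μ.real s`, the measure of `s` as a real number (the outer measure if `s` is not measurable).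

Method: a discrete Fejer kernel gives the decay of the characteristic functions of the multiples of the integers
`c + κ ⌊Z t⌋` at all frequencies which are not near rational numbers with small denominators (`W2helper67.FD.Tl15`), so that
their large spectrum is thin. The passage from such distributions to the variance for all the multiples of almost all moduli
is from the starting files (`Pool.Agent.Y958`, `Pool.Agent.Y885`) and helper625 (`Pool.Agent.N625.PT`), the one from the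
variance to the least primes is from `Pool.Agent.R501.LP`.
-/

set_option autoImplicit false

namespace Pool.Agent.Results.MP_42948a_nt.FourierDecayLeastPrimes

open Finset Filter MeasureTheory

/-- The characteristic function of `μ` decays polynomially: `|∫ exp (i ξ t) dμ(t)| ≤ C₁ |ξ| ^ (-τ)` for `|ξ| ≥ 1`. -/
def FourierDecay (μ : Measure ℝ) (τ C₁ : ℝ) : Prop := ∀ ξ : ℝ, 1 ≤ |ξ| → ‖charFun μ ξ‖ ≤ C₁ * |ξ| ^ (-τ)

open Classical in
/-- The number of the reduced residue classes `a` modulo `d` whose least prime exceeds `x`. -/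
noncomputable def lateClasses (x : ℝ) (d : ℕ) : ℕ :=
  ((range d).filter (fun a => Nat.Coprime a d ∧ ∀ p : ℕ, p.Prime → (p : ℝ) ≤ x → ¬ p % d = a)).card

/-- For all real `x` with `d ≤ x ≤ d log ^ T d` the number of the reduced residue classes modulo `d` whose least prime exceeds
`x` is at most `(1 + ε) φ(d) / (1 + lam)`, where `x = lam φ(d) log d`. -/
def Good (ε : ℝ) (T d : ℕ) : Prop :=
  ∀ x : ℝ, (d : ℝ) ≤ x → x ≤ d * Real.log d ^ T →
    (lateClasses x d : ℝ) * (1 + x / ((Nat.totient d : ℝ) * Real.log d)) ≤ (1 + ε) * (Nat.totient d : ℝ)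

/-- All the multiples `h q`, `1 ≤ h ≤ log ^ J Z`, of all the integers `q ≥ 1` with `|q - n| ≤ log ^ W Z` are `Good`. -/
def Near (ε : ℝ) (J T W : ℕ) (Z : ℝ) (n : ℤ) : Prop :=
  ∀ q : ℕ, 1 ≤ q → |(q : ℝ) - n| ≤ Real.log Z ^ W → ∀ h : ℕ, 1 ≤ h → (h : ℝ) ≤ Real.log Z ^ J → Good ε T (h * q)

lemma good_of (ε : ℝ) (hε : 0 < ε) (hε1 : ε ≤ 1) (T : ℕ) : ∃ Q₀ : ℕ, ∀ Q : ℕ, Q₀ ≤ Q → (∀ x : ℝ, (Q : ℝ) ≤ x → x ≤ Q * Real.log Q ^ T →
    |Pool.Agent.TH894.PV.G x Q - x * Real.log Q| ≤ ε / 4 * (x * Real.log Q)) → Good ε T Q := by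
  obtain ⟨Q₀, h⟩ := Pool.Agent.R501.LP.lpg_of_var T ε hε hε1
  refine ⟨Q₀ + 2, fun Q hQ hvar x hx1 hx2 => ?_⟩
  exact ((Pool.Agent.R501.LP.lpg_iff ε T Q (by omega)).1 (h Q (by omega) hvar) x hx1 hx2).1

/-- **(1)** Let `τ > 0`, `C₁`, `κ ≠ 0`, `J`, `T`, `W`, `u`, `B` and `0 < ε ≤ 1` be fixed. For all large real `Z`, all
probability measures `μ` on `[0, 1)` with `|∫ exp (i ξ t) dμ(t)| ≤ C₁ |ξ| ^ (-τ)` for `|ξ| ≥ 1`, and all integers `c₀` with
`|c₀| ≤ B Z`, all real numbers `t` outside a set of `μ`-measure at most `1 / log ^ u Z` have the following property. Let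
`n = c₀ + κ ⌊Z t⌋`. For all the multiples `d = h q`, `1 ≤ h ≤ log ^ J Z`, of all the integers `q ≥ 1` with
`|q - n| ≤ log ^ W Z`, and for all real `x = lam φ(d) log d` with `d ≤ x ≤ d log ^ T d`, all but at most
`(1 + ε) φ(d) / (1 + lam)` of the reduced residue classes modulo `d` contain a prime `≤ x`.

**(2)** ALL but finitely many truncations of almost all real numbers. Let `μ` be as in (1), `κ ≠ 0`, let `a j` be real
numbers with `a j ≥ exp (j ^ δ)` for all large `j`, where `δ > 0` (for example, `a j = 2 ^ j` or `a j = 10 ^ j`), and `c j`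
integers with `|c j| ≤ B a j`. For `μ`-almost all real numbers `t`, for all `J`, `T`, `W` and `ε > 0`: for all but finitely
many `j`, the integer `n = c j + κ ⌊a j t⌋` has the property in (1) with `Z = a j`.

**(3)** The hypothesis holds with `τ = 1`, `C₁ = 2` for the uniform distributions on the intervals `[u, u + 1)` (for `u = 0`
the measure is on `[0, 1)`), and if it holds for `μ`, then it holds for the convolutions of `μ` and all probability measures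
(with the same `τ` and `C₁`). -/
theorem result :
    (∀ (τ C₁ : ℝ), 0 < τ → ∀ (κ : ℤ), κ ≠ 0 → ∀ (J T W u B : ℕ) (ε : ℝ), 0 < ε → ε ≤ 1 → ∃ Z₀ : ℝ, ∀ Z : ℝ, Z₀ ≤ Z →
      ∀ (μ : Measure ℝ) [IsProbabilityMeasure μ], FourierDecay μ τ C₁ → (∀ᵐ t ∂μ, 0 ≤ t ∧ t < 1) →
      ∀ c₀ : ℤ, |(c₀ : ℝ)| ≤ B * Z →
      μ.real {t | ¬ Near ε J T W Z (c₀ + κ * ⌊Z * t⌋)} ≤ 1 / Real.log Z ^ u) ∧
    (∀ (τ C₁ : ℝ), 0 < τ → ∀ (μ : Measure ℝ) [IsProbabilityMeasure μ], FourierDecay μ τ C₁ →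
      (∀ᵐ t ∂μ, 0 ≤ t ∧ t < 1) → ∀ (κ : ℤ), κ ≠ 0 → ∀ (B : ℕ) (δ : ℝ), 0 < δ → ∀ (a : ℕ → ℝ) (c : ℕ → ℤ),
      (∀ᶠ j : ℕ in atTop, Real.exp ((j : ℝ) ^ δ) ≤ a j) → (∀ j, |(c j : ℝ)| ≤ B * a j) →
      ∀ᵐ t ∂μ, ∀ (J T W : ℕ) (ε : ℝ), 0 < ε → ∀ᶠ j in atTop, Near ε J T W (a j) (c j + κ * ⌊a j * t⌋)) ∧
    (∀ u : ℝ, IsProbabilityMeasure (volume.restrict (Set.Ico u (u + 1))) ∧
      FourierDecay (volume.restrict (Set.Ico u (u + 1))) 1 2) ∧
    (∀ (μ ν : Measure ℝ) [IsProbabilityMeasure μ] [IsProbabilityMeasure ν] (τ C₁ : ℝ), FourierDecay μ τ C₁ →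
      FourierDecay (μ.conv ν) τ C₁) := by
  classical
  have H1 : ∀ (τ C₁ : ℝ), 0 < τ → ∀ (κ : ℤ), κ ≠ 0 → ∀ (J T W u B : ℕ) (ε : ℝ), 0 < ε → ε ≤ 1 → ∃ Z₀ : ℝ,
      ∀ Z : ℝ, Z₀ ≤ Z → ∀ (μ : Measure ℝ) [IsProbabilityMeasure μ], FourierDecay μ τ C₁ →
      (∀ᵐ t ∂μ, 0 ≤ t ∧ t < 1) → ∀ c₀ : ℤ, |(c₀ : ℝ)| ≤ B * Z →
      μ.real {t | ¬ Near ε J T W Z (c₀ + κ * ⌊Z * t⌋)} ≤ 1 / Real.log Z ^ u := by
    intro τ C₁ hτ κ hκ J T W u B ε hε hε1
    obtain ⟨Q₀, h0⟩ := good_of ε hε hε1 T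
    exact Pool.Agent.W2helper67.FD.fd_var hτ C₁ κ hκ J W T u B (ε / 4) (by positivity) (by linarith) (Good ε T) Q₀ h0
  refine ⟨H1, ?_, fun u => ⟨Pool.Agent.W2helper67.FD.prob_unif u, Pool.Agent.W2helper67.FD.fdec_unif u⟩,
    fun μ ν _ _ τ C₁ h => Pool.Agent.W2helper67.FD.fdec_conv μ ν h⟩
  intro τ C₁ hτ μ _ hμ hs κ hκ B δ hδ a c ha hc
  have hfix : ∀ᵐ t ∂μ, ∀ (J T W i : ℕ), ∀ᶠ j in atTop,
      Near (1 / ((i : ℝ) + 1)) J T W (a j) (c j + κ * ⌊a j * t⌋) := by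
    refine ae_all_iff.2 fun J => ae_all_iff.2 fun T => ae_all_iff.2 fun W => ae_all_iff.2 fun i => ?_
    obtain ⟨u, hu⟩ := exists_nat_ge (2 / δ)
    have hi0 : (0 : ℝ) < 1 / ((i : ℝ) + 1) := by positivity
    have hi1 : 1 / ((i : ℝ) + 1) ≤ 1 := by
      rw [div_le_one (by positivity)]
      linarith [(Nat.cast_nonneg i : (0 : ℝ) ≤ i)]
    obtain ⟨Z₀, h⟩ := H1 τ C₁ hτ κ hκ J T W u B _ hi0 hi1
    have hu2 : 2 ≤ δ * u := by
      rw [div_le_iff₀ hδ] at hu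
      linarith
    have h1 := Pool.Agent.W2helper67.FD.borel_exp μ
      (fun j => {t | ¬ Near (1 / ((i : ℝ) + 1)) J T W (a j) (c j + κ * ⌊a j * t⌋)})
      a δ hδ ha u hu2 Z₀ (fun j hj => h (a j) hj μ hμ hs (c j) (hc j))
    filter_upwards [h1] with t ht
    filter_upwards [ht] with j hj
    by_contra hcon
    exact hj hcon
  filter_upwards [hfix] with t ht J T W ε hε
  obtain ⟨i, hi⟩ := exists_nat_one_div_lt hε
  filter_upwards [ht J T W i] with j hj q hq1 hq h hh1 hh2 x hx1 hx2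
  have h0 := hj q hq1 hq h hh1 hh2 x hx1 hx2
  have hφ : (0 : ℝ) ≤ Nat.totient (h * q) := Nat.cast_nonneg _
  exact h0.trans (mul_le_mul_of_nonneg_right (by linarith) hφ)

end Pool.Agent.Results.MP_42948a_nt.FourierDecayLeastPrimes
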