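import Pool.Agent.W2helper67.FD.Mult
import Pool.Agent.W2helper67.FD.Ex

/-!
# Hooley's variance conjecture for all the multiples of all the moduli near all long truncations of almost all real numbers,
with respect to measures with Fourier decay

From Mathlib: `MeasureTheory.charFun μ ξ = ∫ exp (i ξ t) dμ(t)`, the characteristic function; `Measure.conv`, the
convolution; `μ.real s`, the measure of `s` as a real number (the outer measure if `s` is not measurable).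

Method: a discrete Fejer kernel gives the decay of the characteristic functions of the multiples of the integers
`c + κ ⌊Z t⌋` at all frequencies which are not near rational numbers with small denominators (`W2helper67.FD.Tl15`), so that
their large spectrum is thin. The passage from such distributions to the variance for all the multiples of almost all moduli
is from the starting files (`Pool.Agent.Y958`, `Pool.Agent.Y885`) and helper625 (`Pool.Agent.N625.PT`).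
-/

set_option autoImplicit false

namespace Pool.Agent.Results.MP_5d318d_nt.FourierDecayModuli

open Finset Filter MeasureTheory

/-- The characteristic function of `μ` decays polynomially: `|∫ exp (i ξ t) dμ(t)| ≤ C₁ |ξ| ^ (-τ)` for `|ξ| ≥ 1`. -/
def FourierDecay (μ : Measure ℝ) (τ C₁ : ℝ) : Prop := ∀ ξ : ℝ, 1 ≤ |ξ| → ‖charFun μ ξ‖ ≤ C₁ * |ξ| ^ (-τ)

/-- `ψ(x; q, a) = ∑_{n ≤ x, n ≡ a mod q} Λ(n)` for `0 ≤ a < q` -/
noncomputable def psiAP (x : ℝ) (q a : ℕ) : ℝ :=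
  ∑ n ∈ (Icc 1 ⌊x⌋₊).filter (fun n => n % q = a), ArithmeticFunction.vonMangoldt n

/-- The variance `G(x,q) = ∑_{a mod q, (a,q)=1} (ψ(x;q,a) - x/φ(q))²`. -/
noncomputable def G (x : ℝ) (q : ℕ) : ℝ :=
  ∑ a ∈ (range q).filter (fun a => Nat.Coprime a q), (psiAP x q a - x / (Nat.totient q : ℝ)) ^ 2

/-- `|G(x,Q) - x log Q| ≤ ε x log Q` for ALL real `x` with `Q ≤ x ≤ Q log ^ T Q`. -/
def Good (ε : ℝ) (T Q : ℕ) : Prop :=
  ∀ x : ℝ, (Q : ℝ) ≤ x → x ≤ Q * Real.log Q ^ T → |G x Q - x * Real.log Q| ≤ ε * (x * Real.log Q)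

/-- All the multiples `h q`, `1 ≤ h ≤ log ^ J Z`, of all the integers `q ≥ 1` with `|q - n| ≤ log ^ W Z` are `Good`. -/
def Near (ε : ℝ) (J T W : ℕ) (Z : ℝ) (n : ℤ) : Prop :=
  ∀ q : ℕ, 1 ≤ q → |(q : ℝ) - n| ≤ Real.log Z ^ W → ∀ h : ℕ, 1 ≤ h → (h : ℝ) ≤ Real.log Z ^ J → Good ε T (h * q)

/-- **(1)** Let `τ > 0`, `C₁`, `κ ≠ 0`, `J`, `T`, `W`, `u`, `B` and `0 < ε ≤ 1` be fixed. For all large real `Z`, all
probability measures `μ` on `[0, 1)` with `|∫ exp (i ξ t) dμ(t)| ≤ C₁ |ξ| ^ (-τ)` for `|ξ| ≥ 1`, and all integers `c₀` with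
`|c₀| ≤ B Z`, all real numbers `t` outside a set of `μ`-measure at most `1 / log ^ u Z` have the following property. Let
`n = c₀ + κ ⌊Z t⌋`. For all the multiples `Q = h q`, `1 ≤ h ≤ log ^ J Z`, of all the integers `q ≥ 1` with
`|q - n| ≤ log ^ W Z`, and for all real `x` with `Q ≤ x ≤ Q log ^ T Q`, one has `|G(x, Q) - x log Q| ≤ ε x log Q`.

**(2)** ALL but finitely many truncations of almost all real numbers. Let `μ` be as in (1), `κ ≠ 0`, let `a j` be real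
numbers with `a j ≥ exp (j ^ δ)` for all large `j`, where `δ > 0` (for example, `a j = 2 ^ j` or `a j = 10 ^ j`), and `c j`
integers with `|c j| ≤ B a j`. For `μ`-almost all real numbers `t`, for all `J`, `T`, `W` and `ε > 0`: for all but finitely
many `j`, the integer `n = c j + κ ⌊a j t⌋` has the property in (1) with `Z = a j`. In particular
`G(x, Q) / (x log Q) → 1` for `j → ∞`, uniformly for these `Q` and `x`.

**(3)** The hypothesis holds with `τ = 1`, `C₁ = 2` for the uniform distributions on the intervals `[u, u + 1)` (for `u = 0`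
the measure is on `[0, 1)`), and if it holds for `μ`, then it holds for the convolutions of `μ` and all probability measures
(with the same `τ` and `C₁`). -/
theorem result :
    (∀ (τ C₁ : ℝ), 0 < τ → ∀ (κ : ℤ), κ ≠ 0 → ∀ (J T W u B : ℕ) (ε : ℝ), 0 < ε → ε ≤ 1 → ∃ Z₀ : ℝ, ∀ Z : ℝ, Z₀ ≤ Z →
      ∀ (μ : Measure ℝ) [IsProbabilityMeasure μ], FourierDecay μ τ C₁ → (∀ᵐ t ∂μ, 0 ≤ t ∧ t < 1) →
      ∀ c₀ : ℤ, |(c₀ : ℝ)| ≤ B * Z →
      μ.real {t | ¬ Near ε J T W Z (c₀ + κ * ⌊Z * t⌋)} ≤ 1 / Real.log Z ^ u) ∧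
    (∀ (τ C₁ : ℝ), 0 < τ → ∀ (μ : Measure ℝ) [IsProbabilityMeasure μ], FourierDecay μ τ C₁ →
      (∀ᵐ t ∂μ, 0 ≤ t ∧ t < 1) → ∀ (κ : ℤ), κ ≠ 0 → ∀ (B : ℕ) (δ : ℝ), 0 < δ → ∀ (a : ℕ → ℝ) (c : ℕ → ℤ),
      (∀ᶠ j : ℕ in atTop, Real.exp ((j : ℝ) ^ δ) ≤ a j) → (∀ j, |(c j : ℝ)| ≤ B * a j) →
      ∀ᵐ t ∂μ, ∀ (J T W : ℕ) (ε : ℝ), 0 < ε → ∀ᶠ j in atTop, Near ε J T W (a j) (c j + κ * ⌊a j * t⌋)) ∧
    (∀ u : ℝ, IsProbabilityMeasure (volume.restrict (Set.Ico u (u + 1))) ∧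
      FourierDecay (volume.restrict (Set.Ico u (u + 1))) 1 2) ∧
    (∀ (μ ν : Measure ℝ) [IsProbabilityMeasure μ] [IsProbabilityMeasure ν] (τ C₁ : ℝ), FourierDecay μ τ C₁ →
      FourierDecay (μ.conv ν) τ C₁) := by
  classical
  have H1 : ∀ (τ C₁ : ℝ), 0 < τ → ∀ (κ : ℤ), κ ≠ 0 → ∀ (J T W u B : ℕ) (ε : ℝ), 0 < ε → ε ≤ 1 → ∃ Z₀ : ℝ,
      ∀ Z : ℝ, Z₀ ≤ Z → ∀ (μ : Measure ℝ) [IsProbabilityMeasure μ], FourierDecay μ τ C₁ →
      (∀ᵐ t ∂μ, 0 ≤ t ∧ t < 1) → ∀ c₀ : ℤ, |(c₀ : ℝ)| ≤ B * Z →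
      μ.real {t | ¬ Near ε J T W Z (c₀ + κ * ⌊Z * t⌋)} ≤ 1 / Real.log Z ^ u := by
    intro τ C₁ hτ κ hκ J T W u B ε hε hε1
    exact Pool.Agent.W2helper67.FD.fd_var hτ C₁ κ hκ J W T u B ε hε hε1 (Good ε T) 0
      (fun Q _ h x hx1 hx2 => h x hx1 hx2)
  refine ⟨H1, ?_, fun u => ⟨Pool.Agent.W2helper67.FD.prob_unif u, Pool.Agent.W2helper67.FD.fdec_unif u⟩,
    fun μ ν _ _ τ C₁ h => Pool.Agent.W2helper67.FD.fdec_conv μ ν h⟩
  intro τ C₁ hτ μ _ hμ hs κ hκ B δ hδ a c ha hc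
  have hfix : ∀ᵐ t ∂μ, ∀ (J T W i : ℕ), ∀ᶠ j in atTop,
      Near (1 / ((i : ℝ) + 1)) J T W (a j) (c j + κ * ⌊a j * t⌋) := by
    refine ae_all_iff.2 fun J => ae_all_iff.2 fun T => ae_all_iff.2 fun W => ae_all_iff.2 fun i => ?_
    obtain ⟨u, hu⟩ := exists_nat_ge (2 / δ)
    have hi0 : (0 : ℝ) < 1 / ((i : ℝ) + 1) := by positivity
    have hi1 : 1 / ((i : ℝ) + 1) ≤ 1 := by
      rw [div_le_one (by positivity)]
      linarith [(Nat.cast_nonneg i : (0 : ℝ) ≤ i)]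
    obtain ⟨Z₀, h⟩ := H1 τ C₁ hτ κ hκ J T W u B _ hi0 hi1
    have hu2 : 2 ≤ δ * u := by
      rw [div_le_iff₀ hδ] at hu
      linarith
    have h1 := Pool.Agent.W2helper67.FD.borel_exp μ
      (fun j => {t | ¬ Near (1 / ((i : ℝ) + 1)) J T W (a j) (c j + κ * ⌊a j * t⌋)})
      a δ hδ ha u hu2 Z₀ (fun j hj => h (a j) hj μ hμ hs (c j) (hc j))
    filter_upwards [h1] with t ht
    filter_upwards [ht] with j hj
    by_contra hcon
    exact hj hcon
  filter_upwards [hfix] with t ht J T W ε hε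
  obtain ⟨i, hi⟩ := exists_nat_one_div_lt hε
  filter_upwards [ht J T W i] with j hj q hq1 hq h hh1 hh2 x hx1 hx2
  have h0 := hj q hq1 hq h hh1 hh2 x hx1 hx2
  have h1 : 0 ≤ x * Real.log ((h * q : ℕ) : ℝ) :=
    mul_nonneg ((Nat.cast_nonneg _).trans hx1) (Real.log_natCast_nonneg _)
  exact h0.trans (mul_le_mul_of_nonneg_right hi.le h1)

end Pool.Agent.Results.MP_5d318d_nt.FourierDecayModuli
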